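import Mathlib
import Pool.Graph.R_pool_sql_team_seeded_3997aac3.Results.MP_3237b1_co.Outerplanar

/-!
Every locally finite graph, of any cardinality, all of whose finite subgraphs are outerplanar has a
near-interval colouring.
-/

set_option autoImplicit false

universe u

namespace Pool.Agent.Results.MP_3237b1_co.LocallyFinite

open Filter

/-- A finite graph (on any vertex type) is outerplanar when its vertices can be put in an order
(equivalently, at distinct points of a circle) so that no two edges interleave (equivalently, no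
two edges, drawn as chords of the circle, cross). -/
def IsOuterplanar {V : Type u} (G : SimpleGraph V) : Prop :=
  ∃ σ : V → ℕ, Function.Injective σ ∧
    ∀ a b c d, G.Adj a c → G.Adj b d → ¬ (σ a < σ b ∧ σ b < σ c ∧ σ c < σ d)

/-- All finite subgraphs of `G` are outerplanar. -/
def FinitelyOuterplanar {V : Type u} (G : SimpleGraph V) : Prop :=
  ∀ S : Finset V, IsOuterplanar (G.induce (S : Set V))

/-- `S` is a nonempty interval `{a, a + 1, ..., b}` of integers. -/
def IsInterval (S : Set ℤ) : Prop := ∃ a b : ℤ, a ≤ b ∧ S = Set.Icc a b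

/-- `S` is an interval of integers with exactly one integer `m` removed, where
`min S < m < max S`. -/
def IsNearInterval (S : Set ℤ) : Prop :=
  ∃ a b m : ℤ, a < m ∧ m < b ∧ S = Set.Icc a b \ {m}

/-- The set of colours on the edges at `v`. -/
def colorsAt {V : Type u} (G : SimpleGraph V) (c : Sym2 V → ℤ) (v : V) : Set ℤ :=
  {k | ∃ u, G.Adj v u ∧ c s(v, u) = k}

/-- A near-interval colouring (only the values of `c` on edges of `G` matter): adjacent edges get
different colours, and at every vertex with an incident edge the colours form an interval or a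
near-interval. -/
def IsNearIntervalColoring {V : Type u} (G : SimpleGraph V) (c : Sym2 V → ℤ) : Prop :=
  (∀ v u u', G.Adj v u → G.Adj v u' → u ≠ u' → c s(v, u) ≠ c s(v, u')) ∧
  ∀ v, (∃ u, G.Adj v u) → IsInterval (colorsAt G c v) ∨ IsNearInterval (colorsAt G c v)

variable {V : Type u} (G : SimpleGraph V)

/-- A colouring of the whole graph that is good at the vertices all of whose neighbours are in the
finite set `S`. -/
theorem finite_part (hG : FinitelyOuterplanar G) (S : Finset V) :
    ∃ c : Sym2 V → ℤ, ∀ v ∈ S, (∀ u, G.Adj v u → u ∈ S) →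
      (∀ u u', G.Adj v u → G.Adj v u' → u ≠ u' → c s(v, u) ≠ c s(v, u')) ∧
      ((∃ u, G.Adj v u) → IsInterval (colorsAt G c v) ∨ IsNearInterval (colorsAt G c v)) := by
  classical
  obtain ⟨d, hd1, hd2⟩ := Pool.Agent.Results.MP_3237b1_co.Outerplanar.result
    (G.induce (S : Set V)) (hG S)
  have hinj : Function.Injective (Sym2.map (fun x : {x // x ∈ (S : Set V)} => (x : V))) :=
    Sym2.map.injective (f := fun x : {x // x ∈ (S : Set V)} => (x : V)) Subtype.val_injective
  let c : Sym2 V → ℤ := fun p =>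
    if h : ∃ q : Sym2 {x // x ∈ (S : Set V)}, Sym2.map (fun x : {x // x ∈ (S : Set V)} => (x : V)) q = p then d h.choose else 0
  have hc : ∀ x y : {x // x ∈ (S : Set V)}, c s((x : V), (y : V)) = d s(x, y) := by
    intro x y
    have h : ∃ q : Sym2 {x // x ∈ (S : Set V)}, Sym2.map (fun x : {x // x ∈ (S : Set V)} => (x : V)) q = s((x : V), (y : V)) :=
      ⟨s(x, y), rfl⟩
    simp only [c]
    rw [dif_pos h]
    congr 1
    apply hinj
    rw [h.choose_spec]
    rfl
  refine ⟨c, fun v hv hN => ?_⟩
  have hcol : colorsAt G c v = colorsAt (G.induce (S : Set V)) d ⟨v, hv⟩ := by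
    ext k
    constructor
    · rintro ⟨u, hu, rfl⟩
      exact ⟨⟨u, hN u hu⟩, hu, (hc ⟨v, hv⟩ ⟨u, hN u hu⟩).symm⟩
    · rintro ⟨u, hu, rfl⟩
      exact ⟨u, hu, hc ⟨v, hv⟩ u⟩
  refine ⟨fun u u' h1 h2 h3 => ?_, fun ⟨u, hu⟩ => ?_⟩
  · have := hd1 ⟨v, hv⟩ ⟨u, hN u h1⟩ ⟨u', hN u' h2⟩ h1 h2 (fun h => h3 (congrArg Subtype.val h))
    rw [← hc, ← hc] at this
    exact this
  · rw [hcol]
    exact hd2 ⟨v, hv⟩ ⟨⟨u, hN u hu⟩, hu⟩

/-- Sets of `n` colours forming an interval or a near-interval have diameter at most `n`. -/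
theorem diam {S : Set ℤ} (h : IsInterval S ∨ IsNearInterval S) {n : ℕ} (hn : S.ncard ≤ n)
    {x y : ℤ} (hx : x ∈ S) (hy : y ∈ S) : |x - y| ≤ n := by
  rcases h with ⟨a, b, hab, rfl⟩ | ⟨a, b, m, ham, hmb, rfl⟩
  · have h1 : (Set.Icc a b).ncard = (b + 1 - a).toNat := by
      rw [← Finset.coe_Icc, Set.ncard_coe_finset, Int.card_Icc]
    rw [h1] at hn
    rw [abs_le]
    have h2 := hx.1
    have h3 := hx.2
    have h4 := hy.1
    have h5 := hy.2
    omega
  · have h1 : (Set.Icc a b \ {m}).ncard = (b + 1 - a).toNat - 1 := by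
      rw [Set.ncard_sdiff_singleton_of_mem (show m ∈ Set.Icc a b from ⟨ham.le, hmb.le⟩), ← Finset.coe_Icc,
        Set.ncard_coe_finset, Int.card_Icc]
    rw [h1] at hn
    rw [abs_le]
    have h2 := hx.1.1
    have h3 := hx.1.2
    have h4 := hy.1.1
    have h5 := hy.1.2
    omega

/-- A locally finite graph of any cardinality all of whose finite subgraphs are
outerplanar has a near-interval colouring. -/
theorem exists_colouring {V : Type u} (G : SimpleGraph V) (hlf : ∀ v, (G.neighborSet v).Finite)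
    (hG : FinitelyOuterplanar G) : ∃ c : Sym2 V → ℤ, IsNearIntervalColoring G c := by
  classical
  choose cS hcS using finite_part G hG
  let U : Ultrafilter (Finset V) := Ultrafilter.of Filter.atTop
  have hU : (U : Filter (Finset V)) ≤ Filter.atTop := Ultrafilter.of_le _
  have hin : ∀ v : V, ∀ᶠ S in (U : Filter (Finset V)), v ∈ S ∧ ∀ u, G.Adj v u → u ∈ S := fun v =>
    hU (Filter.eventually_ge_atTop ({v} ∪ (hlf v).toFinset : Finset V) |>.mono fun S hS =>
      ⟨hS (by simp), fun u hu => hS (by simp [hu])⟩)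
  -- pairs of edges whose colours have a bounded difference
  let R : Setoid (Sym2 V) :=
    { r := fun e f => ∃ B : ℤ, ∀ᶠ S in (U : Filter (Finset V)), |cS S e - cS S f| ≤ B
      iseqv :=
        { refl := fun e => ⟨0, Filter.Eventually.of_forall fun S => by simp⟩
          symm := fun {e f} ⟨B, hB⟩ => ⟨B, hB.mono fun S hS => by rwa [abs_sub_comm]⟩
          trans := fun {e f g} ⟨B, hB⟩ ⟨C, hC⟩ => ⟨B + C, (hB.and hC).mono fun S hS =>
            (abs_sub_le _ (cS S f) _).trans (add_le_add hS.1 hS.2)⟩ } }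
  have hR : ∀ v u u', G.Adj v u → G.Adj v u' → R s(v, u) s(v, u') := by
    intro v u u' h1 h2
    refine ⟨(G.neighborSet v).ncard, (hin v).mono fun S hS => ?_⟩
    refine diam ((hcS S v hS.1 hS.2).2 ⟨u, h1⟩) ?_ ⟨u, h1, rfl⟩ ⟨u', h2, rfl⟩
    have : colorsAt G (cS S) v = (fun w => cS S s(v, w)) '' G.neighborSet v := by
      ext k
      simp [colorsAt]
    rw [this]
    exact Set.ncard_image_le (hlf v)
  let root : Sym2 V → Sym2 V := fun e => (Quotient.mk R e).out
  have hroot : ∀ e, R e (root e) := fun e => R.symm (Quotient.exact (Quotient.out_eq _))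
  have hroot2 : ∀ e f, R e f → root e = root f := fun e f h => by
    simp only [root]
    rw [Quotient.sound h]
  have hconst : ∀ e, ∃ k : ℤ, ∀ᶠ S in (U : Filter (Finset V)), cS S e - cS S (root e) = k := by
    intro e
    obtain ⟨B, hB⟩ := hroot e
    have h1 : ∀ᶠ S in (U : Filter (Finset V)), ∃ k ∈ Set.Icc (-B) B,
        cS S e - cS S (root e) = k := hB.mono fun S hS => ⟨_, abs_le.1 hS, rfl⟩
    rw [Ultrafilter.eventually_exists_mem_iff (Set.finite_Icc _ _)] at h1
    obtain ⟨k, -, hk⟩ := h1
    exact ⟨k, hk⟩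
  choose c hc using hconst
  refine ⟨c, fun v u u' h1 h2 h3 => ?_, fun v ⟨u₀, hu₀⟩ => ?_⟩
  · obtain ⟨S, hS, e1, e2⟩ := ((hin v).and ((hc s(v, u)).and (hc s(v, u')))).exists
    have hr := hroot2 _ _ (hR v u u' h1 h2)
    have := (hcS S v hS.1 hS.2).1 u u' h1 h2 h3
    rw [← e1, ← e2, hr]
    intro h
    exact this (by linarith)
  · have hall : ∀ᶠ S in (U : Filter (Finset V)), ∀ u ∈ G.neighborSet v,
        cS S s(v, u) - cS S (root s(v, u)) = c s(v, u) := by
      rw [Filter.eventually_all_finite (hlf v)]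
      exact fun u _ => hc _
    obtain ⟨S, hS, hall⟩ := ((hin v).and hall).exists
    obtain ⟨t, ht⟩ : ∃ t : ℤ, t = cS S (root s(v, u₀)) := ⟨_, rfl⟩
    have hcu : ∀ u, G.Adj v u → c s(v, u) = cS S s(v, u) - t := fun u hu => by
      rw [← hall u hu, ht, hroot2 _ _ (hR v u u₀ hu hu₀)]
    have hcol : ∀ k, k ∈ colorsAt G c v ↔ k + t ∈ colorsAt G (cS S) v := by
      intro k
      constructor
      · rintro ⟨u, hu, rfl⟩
        exact ⟨u, hu, by rw [hcu u hu]; ring⟩
      · rintro ⟨u, hu, h⟩
        exact ⟨u, hu, by rw [hcu u hu, h]; ring⟩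
    rcases (hcS S v hS.1 hS.2).2 ⟨u₀, hu₀⟩ with ⟨a, b, hab, hab2⟩ | ⟨a, b, m, ham, hmb, hab2⟩
    · left
      refine ⟨a - t, b - t, by omega, ?_⟩
      ext k
      rw [hcol, hab2, Set.mem_Icc, Set.mem_Icc]
      omega
    · right
      refine ⟨a - t, b - t, m - t, by omega, by omega, ?_⟩
      ext k
      rw [hcol, hab2]
      simp only [Set.mem_sdiff, Set.mem_Icc, Set.mem_singleton_iff]
      omega

/-- A graph with a near-interval colouring is locally finite. -/
theorem locally_finite {V : Type u} (G : SimpleGraph V) {c : Sym2 V → ℤ}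
    (hc : IsNearIntervalColoring G c) (v : V) : (G.neighborSet v).Finite := by
  by_cases hv : ∃ u, G.Adj v u
  · have hfin : (colorsAt G c v).Finite := by
      rcases hc.2 v hv with ⟨a, b, _, h⟩ | ⟨a, b, m, _, _, h⟩
      · rw [h]; exact Set.finite_Icc _ _
      · rw [h]; exact (Set.finite_Icc _ _).sdiff
    refine Set.Finite.of_finite_image (f := fun u => c s(v, u)) (hfin.subset ?_) ?_
    · rintro _ ⟨u, hu, rfl⟩
      exact ⟨u, hu, rfl⟩
    · intro u hu u' hu' h
      by_contra hne
      exact hc.1 v u u' hu hu' hne h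
  · have : G.neighborSet v = ∅ := by
      ext u
      simp only [SimpleGraph.mem_neighborSet, Set.mem_empty_iff_false, iff_false]
      exact fun h => hv ⟨u, h⟩
    rw [this]
    exact Set.finite_empty

/-- **Main theorem.** A graph of any cardinality all of whose finite subgraphs are outerplanar has
a near-interval colouring if and only if it is locally finite. -/
theorem result {V : Type u} (G : SimpleGraph V) (hG : FinitelyOuterplanar G) :
    (∃ c : Sym2 V → ℤ, IsNearIntervalColoring G c) ↔ ∀ v, (G.neighborSet v).Finite :=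
  ⟨fun ⟨_, hc⟩ v => locally_finite G hc v, fun h => exists_colouring G h hG⟩

end Pool.Agent.Results.MP_3237b1_co.LocallyFinite
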